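import Mathlib

set_option autoImplicit false
open Filter Topology Finset Nat

namespace Pool.Agent.H.MP_b82e9e_an

abbrev Z : Type := ℝ × ℕ × ℕ

def F (z : Z) : Set Z :=
  {y | y = (z.1, z.2.1, z.2.2 + 1) ∨ ∃ i : ℕ, y = (z.1 + 1 / ((i : ℝ) + 1), i, 0)}

noncomputable def rho (c : ℝ) : ℝ := max 0 (min 1 (1 - c))

def act (z : Z) : Prop := z.2.1 ! ≤ z.2.2 ∧ z.2.2 < (z.2.1 + 2)!

open Classical in
noncomputable def r (z : Z) : ℝ := if act z then rho z.1 else 0

lemma rho_nonneg (c : ℝ) : 0 ≤ rho c := le_max_left _ _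
lemma rho_le_one (c : ℝ) : rho c ≤ 1 := max_le zero_le_one (min_le_left _ _)
lemma rho_anti {c d : ℝ} (h : c ≤ d) : rho d ≤ rho c :=
  max_le_max le_rfl (min_le_min le_rfl (by linarith))
lemma rho_lip {c d : ℝ} (hd : 0 ≤ d) : rho c - d ≤ rho (c + d) := by
  unfold rho
  simp only [max_def, min_def]
  split_ifs <;> linarith
lemma rho_le {c b : ℝ} (h : b ≤ c) (hb : b ≤ 1) : rho c ≤ 1 - b :=
  max_le (by linarith) ((min_le_right _ _).trans (by linarith))
lemma rho_zero : rho 0 = 1 := by simp [rho]

lemma r_nonneg (z : Z) : 0 ≤ r z := by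
  unfold r; split_ifs; exacts [rho_nonneg _, le_rfl]
lemma r_le_rho (z : Z) : r z ≤ rho z.1 := by
  unfold r; split_ifs; exacts [le_rfl, rho_nonneg _]
lemma r_le_one (z : Z) : r z ≤ 1 := (r_le_rho z).trans (rho_le_one _)

lemma F_ne (z : Z) : (F z).Nonempty := ⟨_, Or.inl rfl⟩

section play
variable {s : ℕ → Z} (hs : ∀ t, s (t + 1) ∈ F (s t))
include hs

lemma c_mono : Monotone fun t => (s t).1 := by
  refine monotone_nat_of_le_succ fun t => ?_
  rcases hs t with h | ⟨i, h⟩
  · simp [h]
  · simp only [h]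
    have : (0 : ℝ) < 1 / ((i : ℝ) + 1) := by positivity
    linarith

lemma e_le (h0 : (s 0).2.2 = 0) (t : ℕ) : (s t).2.2 ≤ t := by
  induction t with
  | zero => omega
  | succ t ih =>
    rcases hs t with h | ⟨i, h⟩
    · simp only [h]; omega
    · simp [h]

lemma key (t d : ℕ) :
    ((s (t + d)).2.1 = (s t).2.1 ∧ (s (t + d)).2.2 = (s t).2.2 + d) ∨
      (s t).1 + 1 / (((s (t + d)).2.1 : ℝ) + 1) ≤ (s (t + d)).1 := by
  induction d with
  | zero => left; simp
  | succ d ih =>
    rw [← add_assoc]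
    rcases hs (t + d) with h | ⟨i, h⟩
    · rcases ih with ⟨h1, h2⟩ | h1
      · left; simp only [h]; omega
      · right; simp only [h]; exact h1
    · right
      have := c_mono hs (Nat.le_add_right t d)
      simp only [h]
      simp only at this
      linarith

end play

/-- indicator of a window -/
noncomputable def u (a k t : ℕ) : ℝ := if a ≤ t ∧ t < a + k then 1 else 0

lemma u_nonneg (a k t : ℕ) : 0 ≤ u a k t := by unfold u; split_ifs <;> norm_num

lemma hasSum_u (a k : ℕ) (f : ℕ → ℝ) :
    HasSum (fun t => u a k t * f t) (∑ t ∈ range k, f (a + t)) := by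
  have h : HasSum (fun t => u a k t * f t) (∑ t ∈ Ico a (a + k), u a k t * f t) := by
    refine hasSum_sum_of_ne_finset_zero fun t ht => ?_
    simp only [mem_Ico] at ht
    simp [u, ht]
  convert h using 1
  rw [Finset.sum_Ico_eq_sum_range]
  simp only [add_tsub_cancel_left]
  refine sum_congr rfl fun t ht => ?_
  have := mem_range.1 ht
  simp [u, this]

lemma tv_u (a k n : ℕ) : ∑ t ∈ range n, |u a k (t + 1) - u a k t| ≤ 2 := by
  have h1 : ∀ t, |u a k (t + 1) - u a k t| ≤
      (if t = a - 1 then (1 : ℝ) else 0) + (if t = a + k - 1 then 1 else 0) := by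
    intro t
    unfold u
    split_ifs <;> first | omega | norm_num
  refine (sum_le_sum fun t _ => h1 t).trans ?_
  rw [sum_add_distrib, sum_ite_eq', sum_ite_eq']
  split_ifs <;> norm_num

def val (θ : ℕ → ℝ) (z : Z) : Set ℝ :=
  {x : ℝ | ∃ s : ℕ → Z, s 0 = z ∧ (∀ t, s (t + 1) ∈ F (s t)) ∧ x = ∑' t, θ t * r (s (t + 1))}

lemma val_ne (θ : ℕ → ℝ) (z : Z) : (val θ z).Nonempty :=
  ⟨_, fun t => (z.1, z.2.1, z.2.2 + t), rfl, fun _ => Or.inl rfl, rfl⟩

noncomputable def ces (n t : ℕ) : ℝ := if t < n + 1 then 1 / ((n : ℝ) + 1) else 0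

lemma ces_eq (n t : ℕ) : ces n t = 1 / ((n : ℝ) + 1) * u 0 (n + 1) t := by
  simp [ces, u]

lemma hasSum_ces (n : ℕ) (f : ℕ → ℝ) :
    HasSum (fun t => ces n t * f t) (1 / ((n : ℝ) + 1) * ∑ t ∈ range (n + 1), f t) := by
  have := (hasSum_u 0 (n + 1) f).mul_left (1 / ((n : ℝ) + 1))
  simpa only [ces_eq, mul_assoc, zero_add] using this

lemma ces_upper (n : ℕ) (z : Z) : ∀ x ∈ val (ces n) z, x ≤ rho z.1 := by
  rintro x ⟨s, h0, hs, rfl⟩
  rw [(hasSum_ces n fun t => r (s (t + 1))).tsum_eq]
  have : ∑ t ∈ range (n + 1), r (s (t + 1)) ≤ ∑ _t ∈ range (n + 1), rho z.1 := by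
    refine sum_le_sum fun t _ => (r_le_rho _).trans (rho_anti ?_)
    rw [← h0]
    exact c_mono hs (Nat.zero_le _)
  simp only [sum_const, card_range, nsmul_eq_mul] at this
  push_cast at this
  rw [one_div, inv_mul_le_iff₀ (by positivity)]
  exact this

lemma ces_lower (n i : ℕ) (h1 : (i + 1)! ≤ n + 1) (h2 : n + 1 < (i + 2)!) (z : Z) :
    ∃ x ∈ val (ces n) z, rho z.1 - 2 / ((i : ℝ) + 1) ≤ x := by
  let s : ℕ → Z := fun t => match t with
    | 0 => z
    | t + 1 => (z.1 + 1 / ((i : ℝ) + 1), i, t)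
  refine ⟨_, ⟨s, rfl, fun t => ?_, rfl⟩, ?_⟩
  · cases t with
    | zero => exact Or.inr ⟨i, rfl⟩
    | succ t => exact Or.inl rfl
  · rw [(hasSum_ces n fun t => r (s (t + 1))).tsum_eq]
    set p := rho (z.1 + 1 / ((i : ℝ) + 1)) with hp
    have hp0 : 0 ≤ p := rho_nonneg _
    have hp1 : p ≤ 1 := rho_le_one _
    have hp2 : rho z.1 - 1 / ((i : ℝ) + 1) ≤ p := rho_lip (by positivity)
    have h3 : ∀ t ∈ range (n + 1), p - (if t ∈ range (i !) then 1 else 0) ≤ r (s (t + 1)) := by
      intro t ht
      have ht := mem_range.1 ht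
      split_ifs with h
      · linarith [r_nonneg (s (t + 1))]
      · have h : i ! ≤ t := by simpa using h
        have : act (s (t + 1)) := ⟨h, by show t < (i + 2)!; omega⟩
        simp only [r, this, if_true, sub_zero]
        exact le_rfl
    have h4 := sum_le_sum h3
    rw [sum_sub_distrib, sum_ite_mem] at h4
    simp only [sum_const, card_range, nsmul_eq_mul, mul_one] at h4
    have h5 : ((range (n + 1) ∩ range (i !)).card : ℝ) ≤ (i ! : ℕ) := by
      exact_mod_cast (card_le_card inter_subset_right).trans (card_range _).le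
    have h6 : ((i : ℝ) + 1) * (i ! : ℕ) ≤ (n : ℝ) + 1 := by
      rw [Nat.factorial_succ] at h1
      exact_mod_cast h1
    have h7 : ((i ! : ℕ) : ℝ) ≤ ((n : ℝ) + 1) * (1 / ((i : ℝ) + 1)) := by
      rw [mul_one_div, le_div_iff₀ (by positivity)]; linarith
    push_cast at h4
    rw [one_div ((n : ℝ) + 1), le_inv_mul_iff₀ (by positivity)]
    have h8 : 2 / ((i : ℝ) + 1) = 2 * (1 / ((i : ℝ) + 1)) := by ring
    have h9 : ((n : ℝ) + 1) * (rho z.1 - 1 / ((i : ℝ) + 1)) ≤ ((n : ℝ) + 1) * p :=
      mul_le_mul_of_nonneg_left hp2 (by positivity)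
    rw [h8]
    nlinarith

lemma ces_unif : TendstoUniformly (fun (n : ℕ) (z : Z) => sSup (val (ces n) z))
    (fun z => rho z.1) atTop := by
  rw [Metric.tendstoUniformly_iff]
  intro ε hε
  obtain ⟨I, hI⟩ := exists_nat_gt (2 / ε)
  filter_upwards [eventually_ge_atTop ((I + 2)!)] with n hn z
  have hex : ∃ m, n + 1 < (m + 2)! := ⟨n, by have := Nat.self_le_factorial (n + 2); omega⟩
  have hm := Nat.find_spec hex
  have hI2 : I < Nat.find hex := by
    by_contra hc
    have := Nat.factorial_le (show Nat.find hex + 2 ≤ I + 2 by omega)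
    omega
  have hm1 : (Nat.find hex + 1)! ≤ n + 1 := by
    have := Nat.find_min hex (show Nat.find hex - 1 < Nat.find hex by omega)
    rw [show Nat.find hex - 1 + 2 = Nat.find hex + 1 by omega] at this
    omega
  obtain ⟨x, hx, hx2⟩ := ces_lower n _ hm1 hm z
  have hb : BddAbove (val (ces n) z) := ⟨_, ces_upper n z⟩
  have h1 := le_csSup hb hx
  have h2 := csSup_le (val_ne _ z) (ces_upper n z)
  have h3 : 2 / ((Nat.find hex : ℝ) + 1) < ε := by
    have : (I : ℝ) < Nat.find hex := by exact_mod_cast hI2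
    rw [div_lt_iff₀ hε] at hI
    rw [div_lt_iff₀ (by positivity)]
    nlinarith
  rw [Real.dist_eq, abs_lt]
  constructor <;> linarith

noncomputable def win (k t : ℕ) : ℝ := 1 / (k : ℝ) ^ 2 * ∑ m ∈ range k, u ((4 * (k + m))!) k t

lemma hasSum_win (k : ℕ) (f : ℕ → ℝ) :
    HasSum (fun t => win k t * f t)
      (1 / (k : ℝ) ^ 2 * ∑ m ∈ range k, ∑ t ∈ range k, f ((4 * (k + m))! + t)) := by
  have := (hasSum_sum fun m (_ : m ∈ range k) => hasSum_u ((4 * (k + m))!) k f).mul_left
    (1 / (k : ℝ) ^ 2)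
  simpa only [win, mul_assoc, sum_mul] using this

lemma fact_aux (k j : ℕ) (hk : 1 ≤ k) (h : k ≤ j) : (4 * j)! + k ≤ (4 * j + 1)! := by
  rw [Nat.factorial_succ]
  have := Nat.self_le_factorial (4 * j)
  nlinarith

lemma win_upper (k : ℕ) (hk : 2 ≤ k) : ∀ x ∈ val (win k) (0, 0, 0), x ≤ 1 - 1 / 64 := by
  rintro x ⟨s, h0, hs, rfl⟩
  rw [(hasSum_win k fun t => r (s (t + 1))).tsum_eq]
  have hk0 : (0 : ℝ) < k := by exact_mod_cast (by omega : 0 < k)
  have hk2 : (2 : ℝ) ≤ k := by exact_mod_cast hk
  set R : ℕ → ℝ := fun m => ∑ t ∈ range k, r (s ((4 * (k + m))! + t + 1)) with hR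
  have hRle : ∀ m b, (∀ t < k, r (s ((4 * (k + m))! + t + 1)) ≤ b) → R m ≤ k * b := by
    intro m b hb
    have := sum_le_sum fun t (ht : t ∈ range k) => hb t (mem_range.1 ht)
    simpa using this
  have hR0 : ∀ m, 0 ≤ R m := fun m => sum_nonneg fun t _ => r_nonneg _
  set δ : ℝ := 1 / (8 * (k : ℝ) ^ 2) with hδ
  have hδ0 : 0 < δ := by positivity
  have he := e_le hs (by rw [h0])
  have hbig : ∀ m < k, ∀ t < k, (4 * (k + m))! + t + 1 ≤ (8 * k - 1)! := by
    intro m hm t ht
    have := fact_aux k (k + m) (by omega) (by omega)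
    have := Nat.factorial_le (show 4 * (k + m) + 1 ≤ 8 * k - 1 by omega)
    omega
  have hQ : ∀ m ≤ k, ∀ t, (4 * (k + m))! < t → t ≤ (8 * k - 1)! → act (s t) →
      δ * ∑ j ∈ range m, R j ≤ (s t).1 := by
    intro m
    induction m with
    | zero =>
      intro _ t _ _ _
      have := c_mono hs (Nat.zero_le t)
      simp only [h0] at this
      simpa using this
    | succ m ih =>
      intro hm t ht1 ht2 ha
      have hlt : (4 * (k + m))! < (4 * (k + (m + 1)))! :=
        (Nat.factorial_lt (by omega)).2 (by omega)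
      rw [sum_range_succ]
      by_cases hsv : ∃ t' < k, act (s ((4 * (k + m))! + t' + 1))
      · obtain ⟨t', ht', ha'⟩ := hsv
        have h1 := ih (by omega) _ (by omega) (hbig m (by omega) t' ht') ha'
        have h2 := hRle m 1 fun t _ => r_le_one _
        have hf := fact_aux k (k + m) (by omega) (by omega)
        have hf2 : (4 * (k + m) + 3)! + (4 * (k + m) + 1)! ≤ (4 * (k + (m + 1)))! := by
          rw [show 4 * (k + (m + 1)) = 4 * (k + m) + 3 + 1 by ring, Nat.factorial_succ (_ + 3)]
          have := Nat.factorial_le (show 4 * (k + m) + 1 ≤ 4 * (k + m) + 3 by omega)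
          nlinarith
        set t0 := (4 * (k + m))! + t' + 1 with ht0
        obtain ⟨d, rfl⟩ : ∃ d, t = t0 + d := ⟨t - t0, by omega⟩
        rcases key hs t0 d with ⟨h3, h4⟩ | h3
        · exfalso
          have hi : (s t0).2.1 ≤ 4 * (k + m) + 1 := by
            by_contra hc
            have := (Nat.factorial_lt (show 0 < 4 * (k + m) + 1 by omega)).2 (not_le.1 hc)
            have := ha'.1
            have := he t0
            omega
          have h5 := ha.2
          rw [h3, h4] at h5
          have := Nat.factorial_le (show (s t0).2.1 + 2 ≤ 4 * (k + m) + 3 by omega)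
          omega
        · have hi : (s (t0 + d)).2.1 ≤ 8 * k - 1 := by
            by_contra hc
            have := (Nat.factorial_lt (show 0 < 8 * k - 1 by omega)).2 (not_le.1 hc)
            have := ha.1
            have := he (t0 + d)
            omega
          have hi2 : ((s (t0 + d)).2.1 : ℝ) + 1 ≤ 8 * k := by
            exact_mod_cast (by omega : (s (t0 + d)).2.1 + 1 ≤ 8 * k)
          have h6 : δ * k ≤ 1 / (((s (t0 + d)).2.1 : ℝ) + 1) := by
            have : δ * k = 1 / (8 * k) := by rw [hδ]; field_simp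
            rw [this]
            exact one_div_le_one_div_of_le (by positivity) hi2
          have h7 : δ * R m ≤ δ * k := mul_le_mul_of_nonneg_left (by linarith) hδ0.le
          rw [mul_add]
          linarith
      · have : R m = 0 := by
          refine sum_eq_zero fun t' ht' => ?_
          have : ¬ act (s ((4 * (k + m))! + t' + 1)) := fun h => hsv ⟨t', mem_range.1 ht', h⟩
          simp [r, this]
        rw [this, add_zero]
        exact ih (by omega) t (by omega) ht2 ha
  have hdk : δ * k * k = 1 / 8 := by rw [hδ]; field_simp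
  have hP : ∀ m ≤ k, ∑ j ∈ range m, R j ≤ k * (m - δ * k * m * (m - 1) / 4) := by
    intro m
    induction m with
    | zero => simp
    | succ m ih =>
      intro hm
      have ih := ih (by omega)
      have hmk : (m : ℝ) + 1 ≤ k := by exact_mod_cast hm
      have hm0 : (0 : ℝ) ≤ m := by positivity
      set P := ∑ j ∈ range m, R j with hPd
      have hP1 : P ≤ m * k := by
        have := sum_le_sum fun j (_ : j ∈ range m) => hRle j 1 fun t _ => r_le_one _
        simpa using this
      have hP2 : δ * P ≤ 1 := by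
        have : δ * P ≤ δ * (k * k) :=
          mul_le_mul_of_nonneg_left (by nlinarith) hδ0.le
        nlinarith
      have h1 : R m ≤ k * (1 - δ * P) := by
        refine hRle m _ fun t ht => ?_
        by_cases ha : act (s ((4 * (k + m))! + t + 1))
        · have := hQ m (by omega) _ (by omega) (hbig m (by omega) t ht) ha
          exact (r_le_rho _).trans (rho_le this hP2)
        · simp only [r, ha, if_false]; linarith
      rw [sum_range_succ]
      push_cast
      set η := δ * k with hη
      have hη0 : 0 < η := by positivity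
      have hη1 : η ≤ 1 / 16 := by nlinarith
      have h2 : (1 - η) * P ≤ (1 - η) * (k * (m - η * m * (m - 1) / 4)) :=
        mul_le_mul_of_nonneg_left ih (by linarith)
      have h3 : η * (m - 1) ≤ 2 := by nlinarith
      have h4 : 0 ≤ k * η * m * (2 - η * (m - 1)) := by
        have : 0 ≤ 2 - η * (m - 1) := by linarith
        positivity
      have h5 : k * (1 - δ * P) = k - η * P := by rw [hη]; ring
      nlinarith
  have h := hP k le_rfl
  show 1 / (k : ℝ) ^ 2 * ∑ j ∈ range k, R j ≤ _
  rw [one_div, inv_mul_le_iff₀ (by positivity)]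
  rw [hdk] at h
  nlinarith

noncomputable def th (k : ℕ) : ℕ → ℝ := if Even k then ces k else win k

lemma th_nonneg (k t : ℕ) : 0 ≤ th k t := by
  unfold th
  split_ifs
  · rw [ces_eq]; exact mul_nonneg (by positivity) (u_nonneg _ _ _)
  · exact mul_nonneg (by positivity) (sum_nonneg fun _ _ => u_nonneg _ _ _)

lemma th_sum (k : ℕ) : HasSum (th k) 1 := by
  unfold th
  split_ifs with h
  · have := hasSum_ces k fun _ => 1
    simp only [mul_one, sum_const, card_range, nsmul_eq_mul] at this
    convert this using 1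
    push_cast
    field_simp
  · have hk : k ≠ 0 := by rintro rfl; simp at h
    have := hasSum_win k fun _ => 1
    simp only [mul_one, sum_const, card_range, nsmul_eq_mul] at this
    convert this using 1
    field_simp

lemma th_tv (k : ℕ) (hk : 1 ≤ k) : ∑' t, |th k (t + 1) - th k t| ≤ 2 / (k : ℝ) := by
  have hk0 : (0 : ℝ) < k := by exact_mod_cast hk
  refine Real.tsum_le_of_sum_range_le (fun _ => abs_nonneg _) fun n => ?_
  unfold th
  split_ifs
  · simp only [ces_eq, ← mul_sub, abs_mul]
    rw [← mul_sum, abs_of_pos (by positivity)]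
    have := tv_u 0 (k + 1) n
    calc _ ≤ 1 / ((k : ℝ) + 1) * 2 := mul_le_mul_of_nonneg_left this (by positivity)
      _ ≤ 2 / k := by
        rw [one_div_mul_eq_div]
        exact div_le_div_of_nonneg_left (by norm_num) hk0 (by linarith)
  · simp only [win, ← mul_sub, abs_mul, ← sum_sub_distrib]
    rw [← mul_sum, abs_of_pos (by positivity)]
    have h1 : ∑ t ∈ range n, |∑ m ∈ range k,
        (u ((4 * (k + m))!) k (t + 1) - u ((4 * (k + m))!) k t)| ≤ k * 2 := by
      refine (sum_le_sum fun t _ => abs_sum_le_sum_abs _ _).trans ?_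
      rw [sum_comm]
      have := sum_le_sum fun m (_ : m ∈ range k) => tv_u ((4 * (k + m))!) k n
      simpa using this
    calc _ ≤ 1 / (k : ℝ) ^ 2 * (k * 2) := mul_le_mul_of_nonneg_left h1 (by positivity)
      _ = 2 / k := by field_simp

lemma th_tendsto : Tendsto (fun k => ∑' t, |th k (t + 1) - th k t|) atTop (𝓝 0) := by
  refine squeeze_zero' (Eventually.of_forall fun k => tsum_nonneg fun _ => abs_nonneg _)
    ?_ (tendsto_const_div_atTop_nhds_zero_nat 2)
  filter_upwards [eventually_ge_atTop 1] with k hk using th_tv k hk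

lemma not_conv (w : Z → ℝ) :
    ¬ TendstoUniformly (fun (k : ℕ) (z : Z) => sSup (val (th k) z)) w atTop := by
  intro h
  have h1 := h.tendsto_at (0, 0, 0)
  have h2 := ces_unif.tendsto_at (0, 0, 0)
  have t1 : Tendsto (fun m : ℕ => 2 * m) atTop atTop :=
    tendsto_id.const_mul_atTop' (by norm_num)
  have t2 : Tendsto (fun m : ℕ => 2 * m + 1) atTop atTop :=
    tendsto_atTop_mono (fun m => Nat.le_succ _) t1
  have h3 : w (0, 0, 0) = 1 := by
    have a := h1.comp t1
    have b := h2.comp t1
    simp only [rho_zero] at b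
    refine tendsto_nhds_unique a (b.congr fun m => ?_)
    simp [th]
  have h4 : w (0, 0, 0) ≤ 1 - 1 / 64 := by
    refine le_of_tendsto (h1.comp t2) ?_
    filter_upwards [eventually_ge_atTop 1] with m hm
    have : th (2 * m + 1) = win (2 * m + 1) := by simp [th]
    simp only [Function.comp, this]
    exact csSup_le (val_ne _ _) (win_upper _ (by omega))
  linarith

end Pool.Agent.H.MP_b82e9e_an
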